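import Mathlib

/-!
# Outer-connected domination of line graphs and middle graphs

We disprove `γ̃_c(L(G)) ≤ γ̃_c(M(G))`: for every `N` there is a connected finite graph `G` with
`γ̃_c(L(G)) > N * γ̃_c(M(G))`.
-/

set_option autoImplicit false

namespace Pool.Agent.Results.MP_9a7beb_co.LineExceedsMiddle

/-- The middle graph `M(G)`: its vertices are the vertices and the edges of `G`; two edges are
adjacent when they are distinct and share an endpoint, a vertex and an edge are adjacent when the
vertex is an endpoint of the edge, and no two vertices of `G` are adjacent. -/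
def middleGraph {V : Type*} (G : SimpleGraph V) : SimpleGraph (V ⊕ G.edgeSet) where
  Adj a b := match a, b with
    | .inl _, .inl _ => False
    | .inl v, .inr e => v ∈ (e : Sym2 V)
    | .inr e, .inl v => v ∈ (e : Sym2 V)
    | .inr e, .inr f => G.lineGraph.Adj e f
  symm := ⟨by
    rintro (u | e) (v | f) h
    · exact h
    · exact h
    · exact h
    · exact G.lineGraph.symm.symm _ _ h⟩
  loopless := ⟨by
    rintro (u | e) h
    · exact h
    · exact G.lineGraph.loopless.irrefl _ h⟩

/-- `D` is an outer-connected dominating set of `H`: every vertex outside `D` has a neighbour in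
`D`, and the subgraph induced by the complement of `D` is connected or empty (any two of its
vertices are joined by a walk inside the complement). -/
def IsOuterConnectedDominating {W : Type*} (H : SimpleGraph W) (D : Set W) : Prop :=
  (∀ w, w ∉ D → ∃ d ∈ D, H.Adj w d) ∧ (H.induce Dᶜ).Preconnected

/-- The outer-connected domination number: the minimum size of an outer-connected dominating
set. -/
noncomputable def ocdNumber {W : Type*} (H : SimpleGraph W) : ℕ :=
  sInf {k : ℕ | ∃ D : Finset W, IsOuterConnectedDominating H (D : Set W) ∧ D.card = k}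

/-- The line graph of a connected graph is connected or empty. -/
theorem lineGraph_preconnected {V : Type*} (G : SimpleGraph V) (hG : G.Preconnected) :
    G.lineGraph.Preconnected := by
  have key : ∀ (u v : V) (_ : G.Walk u v) (e f : G.edgeSet), u ∈ (e : Sym2 V) → v ∈ (f : Sym2 V) →
      G.lineGraph.Reachable e f := by
    intro u v p
    induction p with
    | nil =>
      intro e f he hf
      by_cases h : e = f
      · rw [h]
      · exact SimpleGraph.Adj.reachable (SimpleGraph.lineGraph_adj_iff_exists.2 ⟨h, _, he, hf⟩)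
    | cons huw p ih =>
      rename_i a b c
      intro e f he hf
      have h1 : G.lineGraph.Reachable e ⟨s(a, b), huw⟩ := by
        by_cases h : e = ⟨s(a, b), huw⟩
        · rw [h]
        · exact SimpleGraph.Adj.reachable
            (SimpleGraph.lineGraph_adj_iff_exists.2 ⟨h, a, he, Sym2.mem_mk_left _ _⟩)
      exact h1.trans (ih ⟨s(a, b), huw⟩ f (Sym2.mem_mk_right _ _) hf)
  intro e f
  obtain ⟨e, he⟩ := e
  obtain ⟨f, hf⟩ := f
  induction e using Sym2.ind with
  | _ a b =>
    induction f using Sym2.ind with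
    | _ c d =>
      obtain ⟨p⟩ := hG a c
      exact key a c p _ _ (Sym2.mem_mk_left _ _) (Sym2.mem_mk_left _ _)

/-- Upper bound: the vertex set of a connected graph is an outer-connected dominating set of its
middle graph. -/
theorem ocd_middle_le {V : Type*} [Fintype V] (G : SimpleGraph V) (hG : G.Preconnected) :
    ocdNumber (middleGraph G) ≤ Fintype.card V := by
  classical
  apply Nat.sInf_le
  refine ⟨Finset.univ.map ⟨Sum.inl, Sum.inl_injective⟩, ⟨?_, ?_⟩, by simp⟩
  · rintro (v | e) hw
    · exfalso; apply hw; simp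
    · obtain ⟨e, he⟩ := e
      induction e using Sym2.ind with
      | _ a b => exact ⟨.inl a, by simp, Sym2.mem_mk_left a b⟩
  · rintro ⟨x, hx⟩ ⟨y, hy⟩
    rcases x with v | e
    · exfalso; apply hx; simp
    rcases y with v | f
    · exfalso; apply hy; simp
    let φ : G.lineGraph →g (middleGraph G).induce
        ((Finset.univ.map ⟨Sum.inl, Sum.inl_injective⟩ : Finset (V ⊕ G.edgeSet)) : Set _)ᶜ :=
      { toFun := fun e => ⟨.inr e, by simp⟩
        map_rel' := fun h => h }
    exact (lineGraph_preconnected G hG e f).map φ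

/-- Two cliques of size `m + 1` joined by a path with two inner vertices: the vertex `(b, some i)`
is the `i`-th vertex of the clique number `b`, and the two inner vertices of the path are
`(false, none)` and `(true, none)`. -/
def dumbbell (m : ℕ) : SimpleGraph (Bool × Option (Fin (m + 1))) where
  Adj x y := match x, y with
    | (b, some i), (b', some j) => b = b' ∧ i ≠ j
    | (b, some i), (b', none) => b = b' ∧ i = 0
    | (b, none), (b', some j) => b = b' ∧ j = 0
    | (b, none), (b', none) => b ≠ b'
  symm := ⟨by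
    rintro ⟨b, _ | i⟩ ⟨b', _ | j⟩ h
    · exact Ne.symm h
    · exact ⟨h.1.symm, h.2⟩
    · exact ⟨h.1.symm, h.2⟩
    · exact ⟨h.1.symm, Ne.symm h.2⟩⟩
  loopless := ⟨by
    rintro ⟨b, _ | i⟩ h
    · exact h rfl
    · exact h.2 rfl⟩

theorem dumbbell_connected (m : ℕ) : (dumbbell m).Connected := by
  have h1 : ∀ b : Bool, (dumbbell m).Reachable (b, none) (false, none) := by
    intro b
    cases b
    · rfl
    · exact SimpleGraph.Adj.reachable (show (true ≠ false) by simp)
  have h2 : ∀ b : Bool, (dumbbell m).Reachable (b, some 0) (false, none) := by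
    intro b
    exact (SimpleGraph.Adj.reachable (G := dumbbell m) (u := (b, some 0)) (v := (b, none))
      ⟨rfl, rfl⟩).trans (h1 b)
  have h3 : ∀ x, (dumbbell m).Reachable x (false, none) := by
    rintro ⟨b, _ | i⟩
    · exact h1 b
    · by_cases hi : i = 0
      · rw [hi]; exact h2 b
      · exact (SimpleGraph.Adj.reachable (G := dumbbell m) (u := (b, some i)) (v := (b, some 0))
          ⟨rfl, hi⟩).trans (h2 b)
  have : Nonempty (Bool × Option (Fin (m + 1))) := ⟨(false, none)⟩
  exact ⟨fun x y => (h3 x).trans (h3 y).symm⟩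

/-- If `e₀` is the only edge crossing `U` and `e₀ ∈ D`, then the edges outside `D` are all on one
side of `U`. -/
theorem one_side {V : Type*} (G : SimpleGraph V) (D : Set G.edgeSet)
    (hD : (G.lineGraph.induce Dᶜ).Preconnected) (U : Set V) (e₀ : G.edgeSet) (he₀ : e₀ ∈ D)
    (hU : ∀ u v, ∀ h : G.Adj u v, u ∈ U → v ∉ U → (⟨s(u, v), h⟩ : G.edgeSet) = e₀) :
    (∀ e : G.edgeSet, e ∉ D → ∀ v ∈ (e : Sym2 V), v ∈ U) ∨
    (∀ e : G.edgeSet, e ∉ D → ∀ v ∈ (e : Sym2 V), v ∉ U) := by
  -- an edge outside `D` is on one side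
  have h0 : ∀ e : G.edgeSet, e ∉ D → ∀ v ∈ (e : Sym2 V), ∀ w ∈ (e : Sym2 V), v ∈ U → w ∈ U := by
    intro e he v hv w hw hvU
    by_contra hwU
    obtain ⟨e, hee⟩ := e
    have hvw : v ≠ w := fun h => hwU (h ▸ hvU)
    have h1 : e = s(v, w) := (Sym2.mem_and_mem_iff hvw).1 ⟨hv, hw⟩
    subst h1
    have h2 := hU v w hee hvU hwU
    rw [← h2] at he₀
    exact he he₀
  -- walks stay on one side
  have h1 : ∀ (x y : ↥(Dᶜ)) (_ : (G.lineGraph.induce Dᶜ).Walk x y),
      ∀ v ∈ (x.1 : Sym2 V), ∀ w ∈ (y.1 : Sym2 V), v ∈ U → w ∈ U := by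
    intro x y p
    induction p with
    | nil =>
      rename_i x
      intro v hv w hw hvU
      exact h0 x.1 x.2 v hv w hw hvU
    | cons hxz p ih =>
      rename_i x z y
      intro v hv w hw hvU
      obtain ⟨-, t, ht1, ht2⟩ := SimpleGraph.lineGraph_adj_iff_exists.1 hxz
      exact ih t ht2 w hw (h0 x.1 x.2 v hv t ht1 hvU)
  by_cases hcase : ∃ e : G.edgeSet, e ∉ D ∧ ∃ v ∈ (e : Sym2 V), v ∈ U
  · left
    obtain ⟨e, he, v, hv, hvU⟩ := hcase
    intro f hf w hw
    obtain ⟨p⟩ := hD ⟨e, he⟩ ⟨f, hf⟩
    exact h1 _ _ p v hv w hw hvU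
  · right
    intro e he v hv hvU
    exact hcase ⟨e, he, v, hv, hvU⟩

/-- The edges of clique number `b`. -/
def cliqueEdge (m : ℕ) (b : Bool) (e : {e : Sym2 (Fin (m + 1)) // ¬ e.IsDiag}) :
    (dumbbell m).edgeSet :=
  ⟨e.1.map (fun i => (b, some i)), by
    obtain ⟨e, he⟩ := e
    induction e using Sym2.ind with
    | _ i j => exact ⟨rfl, fun h => he h⟩⟩

theorem cliqueEdge_inj (m : ℕ) (b : Bool) : Function.Injective (cliqueEdge m b) := by
  intro e f h
  apply Subtype.ext
  have h1 : e.1.map (fun i => ((b, some i) : Bool × Option (Fin (m + 1)))) =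
      f.1.map (fun i => (b, some i)) := congrArg Subtype.val h
  exact Sym2.map.injective (fun i j hij => by simpa using hij) h1

theorem mem_cliqueEdge (m : ℕ) (b : Bool) (e : {e : Sym2 (Fin (m + 1)) // ¬ e.IsDiag})
    (v : Bool × Option (Fin (m + 1))) (hv : v ∈ (cliqueEdge m b e : Sym2 _)) :
    ∃ i, v = (b, some i) := by
  obtain ⟨i, -, hi⟩ := Sym2.mem_map.1 hv
  exact ⟨i, hi.symm⟩

theorem exists_mem_cliqueEdge (m : ℕ) (b : Bool) (e : {e : Sym2 (Fin (m + 1)) // ¬ e.IsDiag}) :
    ∃ i, ((b, some i) : Bool × Option (Fin (m + 1))) ∈ (cliqueEdge m b e : Sym2 _) := by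
  obtain ⟨e, he⟩ := e
  induction e using Sym2.ind with
  | _ i j => exact ⟨i, Sym2.mem_map.2 ⟨i, Sym2.mem_mk_left _ _, rfl⟩⟩

/-- Counting: an edge set containing all edges of clique `b` and an edge with an endpoint outside
the cliques has more than `(m+1 choose 2)` elements. -/
theorem card_bound (m : ℕ) (b : Bool) (D : Finset (dumbbell m).edgeSet)
    (hD : ∀ e, cliqueEdge m b e ∈ D) (e₀ : (dumbbell m).edgeSet) (he₀ : e₀ ∈ D) (c : Bool)
    (hc : ((c, none) : Bool × Option (Fin (m + 1))) ∈ e₀.1) : (m + 1).choose 2 + 1 ≤ D.card := by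
  classical
  have h1 : (Finset.univ.map ⟨cliqueEdge m b, cliqueEdge_inj m b⟩).card = (m + 1).choose 2 := by
    rw [Finset.card_map, Finset.card_univ, Sym2.card_subtype_not_diag, Fintype.card_fin]
  have h2 : e₀ ∉ Finset.univ.map ⟨cliqueEdge m b, cliqueEdge_inj m b⟩ := by
    intro h
    obtain ⟨e, -, he⟩ := Finset.mem_map.1 h
    have he' : cliqueEdge m b e = e₀ := he
    rw [← he'] at hc
    obtain ⟨i, hi⟩ := mem_cliqueEdge m b e _ hc
    simp at hi
  rw [← h1, ← Finset.card_insert_of_notMem h2]
  apply Finset.card_le_card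
  intro x hx
  rcases Finset.mem_insert.1 hx with rfl | hx
  · exact he₀
  · obtain ⟨e, -, rfl⟩ := Finset.mem_map.1 hx
    exact hD e

/-- Lower bound for the line graph. -/
theorem ocd_line_ge (m : ℕ) : (m + 1).choose 2 + 1 ≤ ocdNumber (dumbbell m).lineGraph := by
  classical
  apply le_csInf
  · refine ⟨_, Finset.univ, ⟨?_, ?_⟩, rfl⟩
    · intro w hw; simp at hw
    · rintro ⟨x, hx⟩; simp at hx
  rintro k ⟨D, ⟨hdom, hconn⟩, rfl⟩
  have a1 : (dumbbell m).Adj (false, some 0) (false, none) := ⟨rfl, rfl⟩
  have a2 : (dumbbell m).Adj (false, none) (true, none) := by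
    show (false ≠ true); simp
  have a3 : (dumbbell m).Adj (true, none) (true, some 0) := ⟨rfl, rfl⟩
  -- one of the three path edges is in `D`
  have hthree : (⟨s((false, some 0), (false, none)), a1⟩ : (dumbbell m).edgeSet) ∈ D ∨
      (⟨s((false, none), (true, none)), a2⟩ : (dumbbell m).edgeSet) ∈ D ∨
      (⟨s((true, none), (true, some 0)), a3⟩ : (dumbbell m).edgeSet) ∈ D := by
    by_cases h2 : (⟨s((false, none), (true, none)), a2⟩ : (dumbbell m).edgeSet) ∈ D
    · exact Or.inr (Or.inl h2)
    · obtain ⟨⟨d, hd⟩, hdD, hadj⟩ := hdom _ (by exact_mod_cast h2)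
      obtain ⟨hne, t, ht1, ht2⟩ := SimpleGraph.lineGraph_adj_iff_exists.1 hadj
      simp only [Sym2.mem_iff] at ht1
      obtain ⟨w, rfl⟩ := Sym2.mem_iff_exists.1 ht2
      have hd' : (dumbbell m).Adj t w := hd
      rcases ht1 with rfl | rfl
      · obtain ⟨b, _ | j⟩ := w
        · have hb : b = true := by
            have : false ≠ b := hd'
            cases b <;> simp_all
          subst hb
          exact absurd rfl hne
        · obtain ⟨hb, hj⟩ : false = b ∧ j = 0 := hd'
          subst hb; subst hj
          left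
          have : (⟨s((false, some 0), (false, none)), a1⟩ : (dumbbell m).edgeSet) =
            ⟨s((false, none), (false, some 0)), hd⟩ := Subtype.ext Sym2.eq_swap
          rw [this]; exact_mod_cast hdD
      · obtain ⟨b, _ | j⟩ := w
        · have hb : b = false := by
            have : true ≠ b := hd'
            cases b <;> simp_all
          subst hb
          exfalso
          apply hne
          exact Subtype.ext Sym2.eq_swap
        · obtain ⟨hb, hj⟩ : true = b ∧ j = 0 := hd'
          subst hb; subst hj
          right; right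
          exact_mod_cast hdD
  -- if all edges outside `D` avoid clique `b`, then `D` contains the clique
  have hfin : ∀ b : Bool, (∀ e : (dumbbell m).edgeSet, e ∉ (D : Set _) →
      ∀ i, ((b, some i) : Bool × Option (Fin (m + 1))) ∉ (e : Sym2 _)) →
      ∀ e, cliqueEdge m b e ∈ D := by
    intro b hb e
    by_contra he
    obtain ⟨i, hi⟩ := exists_mem_cliqueEdge m b e
    exact hb _ (by exact_mod_cast he) i hi
  rcases hthree with h | h | h
  · rcases one_side (dumbbell m) D hconn {x | ∃ i, x = (false, some i)} _ (by exact_mod_cast h)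
      (by
        rintro u ⟨b', _ | j⟩ huv ⟨i, rfl⟩ hv
        · obtain ⟨hb, hj⟩ : false = b' ∧ i = 0 := huv
          subst hb; subst hj; rfl
        · obtain ⟨hb, hj⟩ : false = b' ∧ i ≠ j := huv
          subst hb
          exact absurd ⟨j, rfl⟩ hv) with h1 | h1
    · refine card_bound m true D (hfin true ?_) _ h false (Sym2.mem_mk_right _ _)
      intro e he i hi
      obtain ⟨j, hj⟩ := h1 e he _ hi
      simp at hj
    · refine card_bound m false D (hfin false ?_) _ h false (Sym2.mem_mk_right _ _)
      intro e he i hi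
      exact h1 e he _ hi ⟨i, rfl⟩
  · rcases one_side (dumbbell m) D hconn {x | x.1 = false} _ (by exact_mod_cast h)
      (by
        rintro ⟨b, _ | i⟩ ⟨b', _ | j⟩ huv hu hv
        · have hb : b = false := hu
          subst hb
          have hb' : b' = true := by
            have : ¬ (b' = false) := hv
            simpa using this
          subst hb'; rfl
        · obtain ⟨hb, hj⟩ : b = b' ∧ j = 0 := huv
          subst hb; exact absurd hu hv
        · obtain ⟨hb, hj⟩ : b = b' ∧ i = 0 := huv
          subst hb; exact absurd hu hv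
        · obtain ⟨hb, hj⟩ : b = b' ∧ i ≠ j := huv
          subst hb; exact absurd hu hv) with h1 | h1
    · refine card_bound m true D (hfin true ?_) _ h false (Sym2.mem_mk_left _ _)
      intro e he i hi
      have := h1 e he _ hi
      simp at this
    · refine card_bound m false D (hfin false ?_) _ h false (Sym2.mem_mk_left _ _)
      intro e he i hi
      exact h1 e he _ hi rfl
  · rcases one_side (dumbbell m) D hconn {x | ¬ ∃ i, x = (true, some i)} _ (by exact_mod_cast h)
      (by
        rintro ⟨b, _ | i⟩ v huv hu hv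
        · simp only [Set.mem_ofPred_eq, not_not] at hv
          obtain ⟨j, rfl⟩ := hv
          obtain ⟨hb, hj⟩ : b = true ∧ j = 0 := huv
          subst hb; subst hj; rfl
        · simp only [Set.mem_ofPred_eq, not_not] at hv
          obtain ⟨j, rfl⟩ := hv
          obtain ⟨hb, hj⟩ : b = true ∧ i ≠ j := huv
          subst hb
          exact absurd ⟨i, rfl⟩ hu) with h1 | h1
    · refine card_bound m true D (hfin true ?_) _ h true (Sym2.mem_mk_left _ _)
      intro e he i hi
      exact h1 e he _ hi ⟨i, rfl⟩
    · refine card_bound m false D (hfin false ?_) _ h true (Sym2.mem_mk_left _ _)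
      intro e he i hi
      have := h1 e he _ hi
      simp at this

/-- The inequality `γ̃_c(L(G)) ≤ γ̃_c(M(G))` fails, and the ratio is unbounded: for every `N` there
is a finite connected graph `G` of order at least two with `γ̃_c(L(G)) > N * γ̃_c(M(G))`. -/
theorem result (N : ℕ) : ∃ (V : Type) (_ : Fintype V) (G : SimpleGraph V),
    2 ≤ Fintype.card V ∧ G.Connected ∧
      N * ocdNumber (middleGraph G) < ocdNumber G.lineGraph := by
  have hcard : Fintype.card (Bool × Option (Fin (4 * N + 8 + 1))) = 2 * (4 * N + 8) + 4 := by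
    simp; ring
  refine ⟨Bool × Option (Fin (4 * N + 8 + 1)), inferInstance, dumbbell (4 * N + 8), ?_,
    dumbbell_connected _, ?_⟩
  · rw [hcard]; omega
  have h1 := ocd_middle_le (dumbbell (4 * N + 8)) (dumbbell_connected _).preconnected
  have h2 := ocd_line_ge (4 * N + 8)
  rw [hcard] at h1
  have h3 : (4 * N + 8 + 1).choose 2 * 2 = (4 * N + 9) * (4 * N + 8) := by
    rw [Nat.choose_two_right, Nat.div_mul_cancel]
    · rfl
    · exact (Nat.even_mul_pred_self _).two_dvd
  have h4 : N * ocdNumber (middleGraph (dumbbell (4 * N + 8))) ≤ N * (2 * (4 * N + 8) + 4) :=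
    Nat.mul_le_mul_left N h1
  nlinarith

end Pool.Agent.Results.MP_9a7beb_co.LineExceedsMiddle
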